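import Pool.Agent.V5helper60.MW.FinB

/-!
# A one-sided bound for the summatory function of the Liouville function in a short window controls the mean of `|L|`

Let `L(u) = ∑_{n ≤ u} λ(n)`, `b = 1/ζ(1/2)` and `F(u) = u^(1/2) (log log log u)^(5/4)` as in Q2. We prove
unconditionally, for every sufficiently large constant `C` and ALL large `x`, with
`H(x) = [x / (C (log log x)²), C x (log log x)²]`:

1. If for one sign `s` and one `A ∈ [0, exp √(log x)]` we have `s (L(u) - b √u) ≤ A √u` for all `u ∈ H(x)`, then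
   `∫_{x/2}^{2x} |L(u) - b √u| du ≤ C₁ A x^(3/2)`, and for BOTH signs `s'` the much shorter window `[x/R, R x]` with
   `R = C₂ √(log (2 + A))` contains a `u` with `s' (L(u) - b √u) ≥ c √u`, and
   `∫_{x/R}^{R x} max(s' (L(u) - b √u), 0) u^(-3/2) du ≥ c`. For bounded `A` the ratio `R` of this window is bounded.
   (The term `b √u` is the well-known bias of `L`.)
2. In particular, if `s L(u) ≤ K F(u)` for all `u ∈ H(x)`, then `∫_{x/2}^{2x} |L(u)| du ≤ C₁ (K + 1) x F(x)`, and the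
   above holds with `R = C₃ √(log log log log x)`.

The constants `c, C₁, C₂, C₃` are absolute. So an upper bound (or a lower bound) of the size asked in Q2, on a single
window, implies the bound of the same size for `L` with the other sign, in mean, and both signs relative to the bias in
windows of ratio `√(log log log log x)`. This is the analogue for `L` of the hand-in `OneSidedBoundsAndMeans`, which is
about the other function `M` of the problem (Q1); the inputs (the `k`-means of `L`, the constant at the zero `ρ`, the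
Gaussian means) are those of `LiouvilleLogLogWindows`, which shows without a hypothesis that both signs relative to the
bias occur in `[x, C x (log log x)²]`.
-/

set_option autoImplicit false

open Filter Topology Set MeasureTheory

namespace Pool.Agent.Results.MP_a499ba_nt.LiouvilleBoundsAndMeans

/-- `L(x)`, the sum of the Liouville function over the positive integers `n ≤ x` -/
noncomputable def L (x : ℝ) : ℝ :=
  ∑ n ∈ Finset.Icc 1 ⌊x⌋₊, ((ArithmeticFunction.liouville n : ℤ) : ℝ)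

/-- `F(x) = x^(1/2) (log log log x)^(5/4)` -/
noncomputable def F (x : ℝ) : ℝ := x ^ (1 / 2 : ℝ) * Real.log (Real.log (Real.log x)) ^ (5 / 4 : ℝ)

/-- `C (log log x)²`, the ratio for the window of the hypothesis -/
noncomputable def outer (C x : ℝ) : ℝ := C * Real.log (Real.log x) ^ 2

/-- `C √(log (2 + A))`, the ratio for the window of the conclusion -/
noncomputable def inner (C A : ℝ) : ℝ := C * Real.sqrt (Real.log (2 + A))

/-- `C √(log log log log x)` -/
noncomputable def innerF (C x : ℝ) : ℝ := C * Real.sqrt (Real.log (Real.log (Real.log (Real.log x))))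

/-- `L(u) - b √u` -/
noncomputable def N (b u : ℝ) : ℝ := L u - b * Real.sqrt u

/-- For both signs `s`: some `u ∈ [x/R, R x]` has `s (L(u) - b √u) ≥ c √u`, and
`∫_{x/R}^{R x} max(s (L(u) - b √u), 0) u^(-3/2) du ≥ c`. -/
def BothSigns (b c R x : ℝ) : Prop := ∀ s : ℝ, s = 1 ∨ s = -1 →
  (∃ u ∈ Icc (x / R) (R * x), c * Real.sqrt u ≤ s * N b u) ∧
  c ≤ ∫ u in (x / R)..(R * x), max (s * N b u) 0 / u ^ (3 / 2 : ℝ)

/-- **Main theorem.** -/
theorem result : ∃ b : ℝ, (b : ℂ) = 1 / riemannZeta (1 / 2) ∧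
    (∃ c C₀ C₁ C₂ : ℝ, 0 < c ∧ 0 < C₀ ∧ 0 < C₁ ∧ 0 < C₂ ∧ ∀ C : ℝ, C₀ ≤ C → ∀ᶠ x : ℝ in atTop,
      ∀ s : ℝ, s = 1 ∨ s = -1 → ∀ A : ℝ, 0 ≤ A → A ≤ Real.exp (Real.sqrt (Real.log x)) →
      (∀ u ∈ Icc (x / outer C x) (outer C x * x), s * N b u ≤ A * Real.sqrt u) →
      (∫ u in (x / 2)..(2 * x), |N b u| ≤ C₁ * A * x ^ (3 / 2 : ℝ)) ∧ BothSigns b c (inner C₂ A) x) ∧
    (∃ c C₀ C₁ C₃ : ℝ, 0 < c ∧ 0 < C₀ ∧ 0 < C₁ ∧ 0 < C₃ ∧ ∀ C : ℝ, C₀ ≤ C → ∀ K : ℝ, 0 < K → ∀ᶠ x : ℝ in atTop,
      ∀ s : ℝ, s = 1 ∨ s = -1 →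
      (∀ u ∈ Icc (x / outer C x) (outer C x * x), s * L u ≤ K * F u) →
      (∫ u in (x / 2)..(2 * x), |L u| ≤ C₁ * (K + 1) * (x * F x)) ∧ BothSigns b c (innerF C₃ x) x) := by
  refine ⟨Pool.Agent.V5helper60.MW.bz, by rw [one_div]; exact Pool.Agent.V5helper60.MW.bz_eq.1, ?_, ?_⟩
  · obtain ⟨c, C0, C1, C2, hc, hC0, hC1, hC2, h⟩ := Pool.Agent.V5helper60.MW.B_L
    exact ⟨c, C0, C1, C2, hc, by linarith, hC1, by linarith, h⟩
  · obtain ⟨c, C0, C1, C3, hc, hC0, hC1, hC3, h⟩ := Pool.Agent.V5helper60.MW.L_F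
    exact ⟨c, C0, C1, C3, hc, by linarith, hC1, by linarith, h⟩

end Pool.Agent.Results.MP_a499ba_nt.LiouvilleBoundsAndMeans
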