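import Pool.Agent.V5helper60.MW.FinB

/-!
# A one-sided bound for the Mertens function in a short window controls the mean of `|M|` and forces both signs

Let `M(u) = ∑_{n ≤ u} μ(n)` and `F(u) = u^(1/2) (log log log u)^(5/4)` as in Q1. We prove unconditionally, for every
sufficiently large constant `C` and ALL large `x`, with `H(x) = [x / (C (log log x)²), C x (log log x)²]`:

1. If for one sign `s` and one `A ∈ [0, exp √(log x)]` we have `s M(u) ≤ A √u` for all `u ∈ H(x)`, then
   `∫_{x/2}^{2x} |M(u)| du ≤ C₁ A x^(3/2)`, and for BOTH signs `s'` the much shorter window `[x/R, R x]` with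
   `R = C₂ √(log (2 + A))` contains a `u` with `s' M(u) ≥ c √u`, and
   `∫_{x/R}^{R x} max(s' M(u), 0) u^(-3/2) du ≥ c`. For bounded `A` the ratio `R` of this window is bounded.
2. In particular, if `s M(u) ≤ K F(u)` for all `u ∈ H(x)`, then `∫_{x/2}^{2x} |M(u)| du ≤ C₁ K x F(x)`, and the above
   holds with `R = C₃ √(log log log log x)`.

The constants `c, C₁, C₂, C₃` are absolute. So an upper bound (or a lower bound) of the size asked in Q1, on a single
window, implies the bound of the same size for `M` with the other sign, in mean, and both signs of size `√u` in windows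
of ratio `√(log log log log x)`.

Earlier: the hand-in `OneSidedLogLogWindows` shows without a hypothesis that both signs of size `√u` occur in
`[x, C x (log log x)²]` (and concerns RH and simplicity under the one-sided bound). The classical argument for
`∫ |M| = 2 ∫ M⁺ - ∫ M` needs the one-sided bound on the whole half-line, or windows of ratio a power of `log x`.

Proof. If RH is false the hypothesis fails for large `x`, by an oscillation theorem of the starting files in windows of
bounded ratio. On RH let `m(u) = M(e^u)`, let `k ≥ 0` be the kernel with Mellin transform `ζ(s) q(s)`, which decays like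
`exp(-(π/4) e^(2|v|))`, and let `g` be the Gaussian mean of `m` of width `≍ t^(-1/2)`. As in `OneSidedLogLogWindows` the
parts `|v| > a` of the `k`-mean of `g` are negligible once `e^(2a) ≥ D (log t)²`, so `∫_{|v| ≤ a} g(t-v) k(v) dv` is
small: the two signs are in balance in this window, and the one-sided bound gives the `k`-mean, hence the mean, of
`|m|` over `[t-1, t+1]`, and likewise around every `y` with `|y - t| ≤ a + 2`. These local mean bounds and the decay of
`k` show that the parts `b < |v| ≤ a` contribute at most a small multiple of `e^(t/2)` when `e^(2b) ≥ D' log (2 + A)`,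
while the window `|v| ≤ a` contributes at least `c e^(t/2)` for both signs.
-/

set_option autoImplicit false

open Filter Topology Set MeasureTheory

namespace Pool.Agent.Results.MP_a499ba_nt.OneSidedBoundsAndMeans

/-- `M(x)`, the sum of the Möbius function over the positive integers `n ≤ x` -/
noncomputable def M (x : ℝ) : ℝ :=
  ∑ n ∈ Finset.Icc 1 ⌊x⌋₊, ((ArithmeticFunction.moebius n : ℤ) : ℝ)

/-- `F(x) = x^(1/2) (log log log x)^(5/4)` -/
noncomputable def F (x : ℝ) : ℝ := x ^ (1 / 2 : ℝ) * Real.log (Real.log (Real.log x)) ^ (5 / 4 : ℝ)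

/-- `C (log log x)²`, the ratio for the window of the hypothesis -/
noncomputable def outer (C x : ℝ) : ℝ := C * Real.log (Real.log x) ^ 2

/-- `C √(log (2 + A))`, the ratio for the window of the conclusion -/
noncomputable def inner (C A : ℝ) : ℝ := C * Real.sqrt (Real.log (2 + A))

/-- `C √(log log log log x)` -/
noncomputable def innerF (C x : ℝ) : ℝ := C * Real.sqrt (Real.log (Real.log (Real.log (Real.log x))))

/-- For both signs `s`: some `u ∈ [x/R, R x]` has `s M(u) ≥ c √u`, and
`∫_{x/R}^{R x} max(s M(u), 0) u^(-3/2) du ≥ c`. -/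
def BothSigns (c R x : ℝ) : Prop := ∀ s : ℝ, s = 1 ∨ s = -1 →
  (∃ u ∈ Icc (x / R) (R * x), c * Real.sqrt u ≤ s * M u) ∧
  c ≤ ∫ u in (x / R)..(R * x), max (s * M u) 0 / u ^ (3 / 2 : ℝ)

/-- **Main theorem.** -/
theorem result :
    (∃ c C₀ C₁ C₂ : ℝ, 0 < c ∧ 0 < C₀ ∧ 0 < C₁ ∧ 0 < C₂ ∧ ∀ C : ℝ, C₀ ≤ C → ∀ᶠ x : ℝ in atTop,
      ∀ s : ℝ, s = 1 ∨ s = -1 → ∀ A : ℝ, 0 ≤ A → A ≤ Real.exp (Real.sqrt (Real.log x)) →
      (∀ u ∈ Icc (x / outer C x) (outer C x * x), s * M u ≤ A * Real.sqrt u) →
      (∫ u in (x / 2)..(2 * x), |M u| ≤ C₁ * A * x ^ (3 / 2 : ℝ)) ∧ BothSigns c (inner C₂ A) x) ∧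
    (∃ c C₀ C₁ C₃ : ℝ, 0 < c ∧ 0 < C₀ ∧ 0 < C₁ ∧ 0 < C₃ ∧ ∀ C : ℝ, C₀ ≤ C → ∀ K : ℝ, 0 < K → ∀ᶠ x : ℝ in atTop,
      ∀ s : ℝ, s = 1 ∨ s = -1 →
      (∀ u ∈ Icc (x / outer C x) (outer C x * x), s * M u ≤ K * F u) →
      (∫ u in (x / 2)..(2 * x), |M u| ≤ C₁ * K * (x * F x)) ∧ BothSigns c (innerF C₃ x) x) := by
  constructor
  · obtain ⟨c, C0, C1, C2, hc, hC0, hC1, hC2, h⟩ := Pool.Agent.V5helper60.MW.B_M
    exact ⟨c, C0, C1, C2, hc, by linarith, hC1, by linarith, h⟩
  · obtain ⟨c, C0, C1, C3, hc, hC0, hC1, hC3, h⟩ := Pool.Agent.V5helper60.MW.B_M.F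
      (fun s x y hs => Pool.Agent.N739.OW.pos_int _ s x y hs)
    exact ⟨c, C0, C1, C3, hc, by linarith, hC1, by linarith, h⟩

end Pool.Agent.Results.MP_a499ba_nt.OneSidedBoundsAndMeans
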