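import Pool.Agent.V5helper60.MW.FinM

/-!
# Both signs of the Mertens function in the windows `[x, C x (log log x)²]`

Let `M(u) = ∑_{n ≤ u} μ(n)`, `F(u) = u^(1/2) (log log log u)^(5/4)` as in Q1, `s = 1` or `s = -1`, and for a constant
`C` and large `x` let `W(x) = [x, C x (log log x)²]`. We prove unconditionally, for every sufficiently large
constant `C`:

1. There is a `c > 0` such that for ALL large `x` and both signs `s` there is a `u ∈ W(x)` with `s M(u) ≥ c √u`;
   moreover `∫_{W(x)} max(s M(u), 0) u^(-3/2) du ≥ c`.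
2. If the Riemann hypothesis is false or `ζ` has a multiple zero in the critical strip, there is a `c > 0` such that for
   ALL large `x` and both signs `s` there is a `u ∈ W(x)` with `s M(u) ≥ c √u log u`, and
   `∫_{W(x)} max(s M(u), 0) u^(-3/2) du ≥ c log x`.
3. So a one-sided bound on a sparse sequence of these windows suffices for RH and the simplicity of the zeros: if for one
   sign `s` and every `ε > 0` there are arbitrarily large `x` with `s M(u) ≤ ε √u log u` for all `u ∈ W(x)` (or with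
   `∫_{W(x)} max(s M(u), 0) u^(-3/2) du ≤ ε log x`), then the Riemann hypothesis holds and all nontrivial zeros are
   simple.
4. In particular this holds if for one sign `s` and one `K` there are arbitrarily large `x` with `s M(u) ≤ K F(u)` for
   all `u ∈ W(x)`. In Q1 this inequality is asked for both signs and all large `u`.

The starting file `MP_323ce2_nt/OneSidedLogWindows` has the windows `[x, x log x]`, and `MertensWindows`,
`MP_323ce2_nt/OneSidedBoundedWindows` have shorter windows but concern only the case that the Riemann hypothesis is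
false. Here the windows are much shorter than `[x, x log x]` and the zeros on the critical line are covered.

Proof on RH. Let `m(u) = M(e^u)` and let `k ≥ 0` be the kernel of the starting files with Mellin transform
`ζ(s) q(s)`, which decays like `exp(-(π/4) e^(2|v|))`, and `k₁` the kernel with transform `ζ(s) q(s)/(s - ρ)`, bounded by
a multiple of `k`. The `k`-mean of `m` is bounded and the `k₁`-mean of `m` is `≍ e^(t/2)`. We replace `m` by its
Gaussian mean `g` of width `h ≍ t^(-1/2)`: this changes the two means little, the tails `|w| > 1` of the Gaussian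
contribute at most `e^(-3t)`, and Mellin inversion on the line `Re s = 1/2 + 1/t` with the bound
`1/ζ(1/2 + δ + iy) = exp(O(log(1/δ) log(3 + |y|)))` (Hadamard, Borel–Carathéodory) shows
`|g(t - v)| ≤ e^(t/2 + |v|) exp(O((log t)²))` for all real `v`. So the parts `|v| > a` of the two means of `g` are
negligible as soon as `e^(2a) ≥ D (log t)²`. As `|k₁| ≪ k` and the `k`-mean is small, both the positive and the
negative part of `m` must have a large mean over `|v| ≤ a`.
-/

set_option autoImplicit false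

open Filter Topology Set MeasureTheory

namespace Pool.Agent.Results.MP_a499ba_nt.OneSidedLogLogWindows

/-- `M(x)`, the sum of the Möbius function over the positive integers `n ≤ x` -/
noncomputable def M (x : ℝ) : ℝ :=
  ∑ n ∈ Finset.Icc 1 ⌊x⌋₊, ((ArithmeticFunction.moebius n : ℤ) : ℝ)

/-- `F(x) = x^(1/2) (log log log x)^(5/4)` -/
noncomputable def F (x : ℝ) : ℝ := x ^ (1 / 2 : ℝ) * Real.log (Real.log (Real.log x)) ^ (5 / 4 : ℝ)

/-- the right end `C x (log log x)²` of the window -/
noncomputable def rightEnd (C x : ℝ) : ℝ := C * x * Real.log (Real.log x) ^ 2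

/-- `∫_x^{C x (log log x)²} max(s M(u), 0) u^(-3/2) du` -/
noncomputable def part (s C x : ℝ) : ℝ := ∫ u in x..rightEnd C x, max (s * M u) 0 / u ^ (3 / 2 : ℝ)

/-- The Riemann hypothesis holds and all zeros of `ζ` in the critical strip are simple. -/
def RHSimple : Prop := RiemannHypothesis ∧
  ∀ ρ : ℂ, riemannZeta ρ = 0 → 0 < ρ.re → ρ.re < 1 → deriv riemannZeta ρ ≠ 0

/-- **Main theorem.** -/
theorem result :
    (∃ c C₀ : ℝ, 0 < c ∧ 0 < C₀ ∧ ∀ C : ℝ, C₀ ≤ C → ∀ᶠ x : ℝ in atTop, ∀ s : ℝ, s = 1 ∨ s = -1 →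
      (∃ u ∈ Icc x (rightEnd C x), c * Real.sqrt u ≤ s * M u) ∧ c ≤ part s C x) ∧
    (¬ RHSimple → ∃ c C₀ : ℝ, 0 < c ∧ 0 < C₀ ∧ ∀ C : ℝ, C₀ ≤ C → ∀ᶠ x : ℝ in atTop, ∀ s : ℝ, s = 1 ∨ s = -1 →
      (∃ u ∈ Icc x (rightEnd C x), c * (Real.sqrt u * Real.log u) ≤ s * M u) ∧ c * Real.log x ≤ part s C x) ∧
    (∃ C₀ : ℝ, 0 < C₀ ∧ ∀ C : ℝ, C₀ ≤ C → ∀ s : ℝ, s = 1 ∨ s = -1 →
      ((∀ ε : ℝ, 0 < ε → ∃ᶠ x : ℝ in atTop,
        ∀ u ∈ Icc x (rightEnd C x), s * M u ≤ ε * (Real.sqrt u * Real.log u)) → RHSimple) ∧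
      ((∀ ε : ℝ, 0 < ε → ∃ᶠ x : ℝ in atTop, part s C x ≤ ε * Real.log x) → RHSimple) ∧
      (∀ K : ℝ, (∃ᶠ x : ℝ in atTop, ∀ u ∈ Icc x (rightEnd C x), s * M u ≤ K * F u) → RHSimple)) := by
  refine ⟨?_, fun h => ?_, ?_⟩
  · obtain ⟨c, C0, hc, hC0, h⟩ := Pool.Agent.V5helper60.MW.M_one
    refine ⟨c, C0, hc, by linarith, fun C hC => ?_⟩
    filter_upwards [h C hC] with x hx s hs
    have := hx s hs
    simp only [mul_one] at this
    exact this
  · obtain ⟨c, C0, hc, hC0, h⟩ := Pool.Agent.V5helper60.MW.M_log h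
    exact ⟨c, C0, hc, by linarith, h⟩
  · by_cases hS : RHSimple
    · exact ⟨1, one_pos, fun C _ s _ => ⟨fun _ => hS, fun _ => hS, fun _ _ => hS⟩⟩
    · obtain ⟨C0, hC0, h⟩ := Pool.Agent.V5helper60.MW.Wn_cons (Pool.Agent.V5helper60.MW.M_log hS)
      refine ⟨C0, hC0, fun C hC s hs => ⟨fun h1 => absurd h1 (h C hC s hs).1, fun h1 => absurd h1 (h C hC s hs).2,
        fun K h1 => absurd ?_ (h C hC s hs).1⟩⟩
      intro ε hε
      obtain ⟨x0, hx0⟩ := eventually_atTop.1 (Pool.Agent.V5helper60.MW.F_small K ε hε)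
      refine (h1.and_eventually (eventually_ge_atTop x0)).mono ?_
      rintro x ⟨h2, h3⟩ u hu
      exact (h2 u hu).trans (hx0 u (h3.trans hu.1))

end Pool.Agent.Results.MP_a499ba_nt.OneSidedLogLogWindows
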